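import Pool.Agent.W841.PK.ChkS

/-! Soundness of regridding (project PK, MP_350a25_pr). -/

set_option autoImplicit false

namespace Pool.Agent.W925.PK

open W841.PK W841.PK.Chk

theorem frc_eq {α : Type} (n : ℕ) (f : ℕ → α) : frc n f = f n := by cases n <;> rfl

theorem fval_def (fl fn fN fL fR i : ℕ) : fval fl fn fN fL fR i =
    if fl ≤ i then (if fl + fn ≤ i then fR else dg fN (i - fl)) else fL := by
  unfold fval
  simp only [Nat.ble_eq]

theorem gval_def (gl gn gN i : ℕ) : gval gl gn gN i =
    if gl + gn ≤ i then 0 else dg gN (i - gl) := by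
  unfold gval
  simp only [Nat.ble_eq]

theorem crg (_hd : S_Dig) (hv : S_DigRev) (hp : S_Pl) (hr : S_Regrid) : S_CRg := by
  intro δ D fl fn fN fL fR gl gn gN r fl2 fn2 gl2 gn2 k hδ hF hG hstep
  unfold rgStep at hstep
  simp only [frc_eq, Bool.and_eq_true, Nat.ble_eq, Nat.beq_eq] at hstep
  obtain ⟨⟨c1, c2, c3, c4, c5, c6, c7, c8, c9⟩, hk⟩ := hstep
  obtain ⟨-, hpick, hlt⟩ := hv
  have hr0 : (0:ℝ) < r := by exact_mod_cast c4
  have hrδ : 0 < (r : ℝ) * δ := by positivity
  -- values of the old arrays
  have hf0 : fval fl fn fN fL fR 0 = fL := by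
    rw [fval_def, if_neg]; have := hF.lo; omega
  have hfle : ∀ i, fval fl fn fN fL fR i ≤ fL := by
    intro i
    have := hF.anti 0 i (Nat.zero_le _)
    rwa [hf0] at this
  have hfb : ∀ i, fval fl fn fN fL fR i < 2 ^ 88 := by
    intro i
    have h1 := hfle i
    have h2 := hF.le
    have h3 : (2:ℕ) ^ 40 < 2 ^ 88 := Nat.pow_lt_pow_right (by norm_num) (by norm_num)
    omega
  have hgle : ∀ i, gval gl gn gN i ≤ gval gl gn gN 0 := fun i => hG.anti 0 i (Nat.zero_le _)
  have hgb : ∀ i, gval gl gn gN i < 2 ^ 88 := by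
    intro i
    have h1 := hgle i
    have h2 := hG.le
    have h3 : (2:ℕ) ^ 40 < 2 ^ 88 := Nat.pow_lt_pow_right (by norm_num) (by norm_num)
    omega
  set fN2 := pick (fval fl fn fN fL fR) r fn2 (r * (fl2 + fn2 - 1) - (r - 1) * 65537) 0 with hfN2
  set fR2 := fval fl fn fN fL fR (r * (fl2 + fn2) - (r - 1) * 65537) with hfR2
  set gN2 := pick (gval gl gn gN) r gn2 (r * (gl2 + gn2 - 1) - (r - 1) * 65535) 0 with hgN2
  -- digits of the new arrays
  have hfd : ∀ j, j < fn2 → dg fN2 j =
      fval fl fn fN fL fR (r * (fl2 + j) - (r - 1) * 65537) := by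
    intro j hj
    rw [hfN2, hpick _ r fn2 _ j hfb c1, if_pos hj]
    congr 1
    have e1 : r * (fl2 + fn2 - 1) = r * (fl2 + j) + r * (fn2 - 1 - j) := by
      rw [← Nat.mul_add]; congr 1; omega
    rw [e1]
    have e2 : (r - 1) * 65537 ≤ r * (fl2 + j) := by
      have : r * fl2 ≤ r * (fl2 + j) := Nat.mul_le_mul_left r (Nat.le_add_right _ _)
      omega
    omega
  have hgd : ∀ j, j < gn2 → dg gN2 j =
      gval gl gn gN (r * (gl2 + j) - (r - 1) * 65535) := by
    intro j hj
    rw [hgN2, hpick _ r gn2 _ j hgb c2, if_pos hj]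
    congr 1
    have e1 : r * (gl2 + gn2 - 1) = r * (gl2 + j) + r * (gn2 - 1 - j) := by
      rw [← Nat.mul_add]; congr 1; omega
    rw [e1]
    have e2 : (r - 1) * 65535 ≤ r * (gl2 + j) := by
      have : r * gl2 ≤ r * (gl2 + j) := Nat.mul_le_mul_left r (Nat.le_add_right _ _)
      omega
    omega
  -- new values in terms of old ones
  have hfnew : ∀ i, fl2 ≤ i → fval fl2 fn2 fN2 fL fR2 i =
      fval fl fn fN fL fR (r * min i (fl2 + fn2) - (r - 1) * 65537) := by
    intro i hi
    rw [fval_def fl2, if_pos hi]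
    by_cases h : fl2 + fn2 ≤ i
    · rw [if_pos h, min_eq_right h]
    · rw [if_neg h, min_eq_left (by omega), hfd _ (by omega)]
      congr 3
      omega
  have hfnew0 : ∀ i, i < fl2 → fval fl2 fn2 fN2 fL fR2 i = fL := by
    intro i hi
    rw [fval_def fl2, if_neg (by omega)]
  have hgnew : ∀ i, i < gl2 + gn2 → gval gl2 gn2 gN2 i =
      gval gl gn gN (r * max i gl2 - (r - 1) * 65535) := by
    intro i hi
    rw [gval_def gl2, if_neg (by omega), hgd _ (by omega)]
    congr 3
    omega
  have hgnew0 : ∀ i, gl2 + gn2 ≤ i → gval gl2 gn2 gN2 i = 0 := by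
    intro i hi
    rw [gval_def gl2, if_pos hi]
  have hσ : ∀ a b c : ℕ, a ≤ b → r * a - c ≤ r * b - c := by
    intro a b c hab
    exact Nat.sub_le_sub_right (Nat.mul_le_mul_left r hab) c
  have hInvF : InvF fl2 fn2 fN2 fL fR2 := by
    refine ⟨c1, c8, hlt _ _ _ _ hfb, ?_, hF.le⟩
    intro i j hij
    by_cases hi : i < fl2
    · rw [hfnew0 i hi]
      by_cases hj : j < fl2
      · rw [hfnew0 j hj]
      · rw [hfnew j (by omega)]; exact hfle _
    · rw [hfnew i (by omega), hfnew j (by omega)]
      apply hF.anti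
      exact hσ _ _ _ (min_le_min_right _ hij)
  have hInvG : InvG gl2 gn2 gN2 := by
    refine ⟨c2, c9, hlt _ _ _ _ hgb, ?_, ?_⟩
    · intro i j hij
      by_cases hj : gl2 + gn2 ≤ j
      · rw [hgnew0 j hj]; exact Nat.zero_le _
      · rw [hgnew i (by omega), hgnew j (by omega)]
        apply hG.anti
        exact hσ _ _ _ (max_le_max_right _ hij)
    · rw [hgnew 0 (by omega)]
      exact (hgle _).trans hG.le
  refine ⟨c4, c3, fN2, fR2, gN2, hInvF, hInvG, ?_, ?_, hk⟩
  · -- upper bound
    have hanti : Antitone (AF fl fn fN fL fR) := by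
      intro a b hab
      unfold AF
      apply div_le_div_of_nonneg_right _ (by positivity)
      exact_mod_cast hF.anti _ _ (Int.toNat_le_toNat (by omega))
    intro y
    refine ((hr δ r (AF fl fn fN fL fR) hδ c4 hanti).1 y).trans ?_
    apply (hp (r * δ) hrδ).2.2.1
    intro l
    unfold AF
    apply div_le_div_of_nonneg_right _ (by positivity)
    have key : fval fl fn fN fL fR ((r : ℤ) * l - (r - 1) + 65536).toNat ≤
        fval fl2 fn2 fN2 fL fR2 (l + 65536).toNat := by
      by_cases hi : (l + 65536).toNat < fl2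
      · rw [hfnew0 _ hi]; exact hfle _
      · rw [hfnew _ (by omega)]
        apply hF.anti
        have hl : 0 ≤ l + 65536 := by omega
        obtain ⟨i, hi'⟩ := Int.eq_ofNat_of_zero_le hl
        have hl' : l = (i : ℤ) - 65536 := by omega
        rw [hl']
        have e1 : ((i : ℤ) - 65536 + 65536).toNat = i := by omega
        rw [e1]
        refine (hσ (min i (fl2 + fn2)) i _ (min_le_left _ _)).trans ?_
        have e2 : ((r : ℤ) * ((i : ℤ) - 65536) - (r - 1) + 65536) =
            ((r * i : ℕ) : ℤ) - (((r - 1) * 65537 : ℕ) : ℤ) := by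
          rw [Nat.cast_mul, Nat.cast_mul, Nat.cast_sub c4]
          push_cast
          ring
        rw [e2]
        omega
    exact_mod_cast key
  · -- lower bound
    have hanti : Antitone (AG gl gn gN) := by
      intro a b hab
      unfold AG
      apply div_le_div_of_nonneg_right _ (by positivity)
      exact_mod_cast hG.anti _ _ (Int.toNat_le_toNat (by omega))
    intro y
    refine le_trans ?_ ((hr δ r (AG gl gn gN) hδ c4 hanti).2 y)
    apply (hp (r * δ) hrδ).2.2.1
    intro l
    unfold AG
    apply div_le_div_of_nonneg_right _ (by positivity)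
    have key : gval gl2 gn2 gN2 (l + 65536).toNat ≤
        gval gl gn gN ((r : ℤ) * l + (r - 1) + 65536).toNat := by
      by_cases hi : gl2 + gn2 ≤ (l + 65536).toNat
      · rw [hgnew0 _ hi]; exact Nat.zero_le _
      · rw [hgnew _ (by omega)]
        apply hG.anti
        by_cases hl : 0 ≤ l + 65536
        · obtain ⟨i, hi'⟩ := Int.eq_ofNat_of_zero_le hl
          have hl' : l = (i : ℤ) - 65536 := by omega
          rw [hl']
          have e1 : ((i : ℤ) - 65536 + 65536).toNat = i := by omega
          rw [e1]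
          refine le_trans ?_ (hσ i (max i gl2) _ (le_max_left _ _))
          have e2 : ((r : ℤ) * ((i : ℤ) - 65536) + (r - 1) + 65536) =
              ((r * i : ℕ) : ℤ) - (((r - 1) * 65535 : ℕ) : ℤ) := by
            rw [Nat.cast_mul, Nat.cast_mul, Nat.cast_sub c4]
            push_cast
            ring
          rw [e2]
          omega
        · have e3 : ((r : ℤ) * l + (r - 1) + 65536).toNat = 0 := by
            apply Int.toNat_of_nonpos
            have hr1 : (1:ℤ) ≤ r := by exact_mod_cast c4
            have hl2 : l ≤ -65537 := by omega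
            nlinarith
          rw [e3]
          exact Nat.zero_le _
    exact_mod_cast key

end Pool.Agent.W925.PK
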