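import Pool.Agent.W841.PK.Num

/-! Cell estimates for the heat flow (project PK, MP_350a25_pr). -/

set_option autoImplicit false

namespace Pool.Agent.W925.PK

open W841.PK
open Finset MeasureTheory
open scoped Classical

noncomputable section

theorem gd_neg (x : ℝ) : gd (-x) = gd x := by
  unfold gd; rw [neg_sq]

theorem int_hgd (hg : S_Gauss) (h : ℝ → ℝ) (hm : Measurable h) (hb : ∀ x, 0 ≤ h x ∧ h x ≤ 1) :
    Integrable (fun x => h x * gd x) := by
  obtain ⟨-, -, -, -, -, -, -, hi, -, -, -⟩ := hg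
  apply Integrable.bdd_mul (c := 1) hi hm.aestronglyMeasurable
  filter_upwards with x
  rw [Real.norm_eq_abs, abs_of_nonneg (hb x).1]
  exact (hb x).2

theorem int_Ioc (hg : S_Gauss) {a b : ℝ} (hab : a ≤ b) :
    ∫ x in Set.Ioc a b, gd x = Ph b - Ph a := by
  obtain ⟨hd, -, -, -, -, -, -, hi, -, -, -⟩ := hg
  rw [← intervalIntegral.integral_of_le hab]
  exact intervalIntegral.integral_eq_sub_of_hasDerivAt (fun x _ => hd x) hi.intervalIntegrable

theorem int_Ioi (hg : S_Gauss) (a : ℝ) : ∫ x in Set.Ioi a, gd x = Ph (-a) := by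
  obtain ⟨hd, -, hn, -, -, ht, -, hi, -, -, -⟩ := hg
  rw [integral_Ioi_of_hasDerivAt_of_tendsto' (fun x _ => hd x) hi.integrableOn ht, hn]

theorem split_cells (hg : S_Gauss) (h : ℝ → ℝ) (hm : Measurable h)
    (hb : ∀ x, 0 ≤ h x ∧ h x ≤ 1) (κ : ℝ) (hκ : 0 < κ) (N : ℕ) :
    ∫ x in Set.Ioi (0:ℝ), h x * gd x =
      ∑ i ∈ range N, (∫ x in Set.Ioc ((i:ℝ) * κ) ((i + 1) * κ), h x * gd x) +
        ∫ x in Set.Ioi ((N:ℝ) * κ), h x * gd x := by
  have hi := int_hgd hg h hm hb
  induction N with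
  | zero => simp
  | succ N ih =>
    rw [ih, Finset.sum_range_succ, add_assoc]
    congr 1
    have hle : (N:ℝ) * κ ≤ ((N:ℝ) + 1) * κ := by nlinarith
    rw [← Set.Ioc_union_Ioi_eq_Ioi hle, setIntegral_union Set.Ioc_disjoint_Ioi_same
      measurableSet_Ioi hi.integrableOn hi.integrableOn]
    push_cast
    rfl

theorem cell_upper (hg : S_Gauss) (h : ℝ → ℝ) (hm : Measurable h)
    (hb : ∀ x, 0 ≤ h x ∧ h x ≤ 1) (κ : ℝ) (hκ : 0 < κ) (N : ℕ) (c : ℕ → ℝ)
    (hc : ∀ i < N, ∀ x, (i:ℝ) * κ < x → x ≤ (i + 1) * κ → h x ≤ c i) :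
    ∫ x in Set.Ioi (0:ℝ), h x * gd x ≤
      (∑ i ∈ range N, cm κ i * c i) / 2 + Ph (-((N:ℝ) * κ)) := by
  have hgp : ∀ x, 0 < gd x := fun x => (hg.2.1 x).1
  have higd : Integrable gd := hg.2.2.2.2.2.2.2.1
  have hi := int_hgd hg h hm hb
  rw [split_cells hg h hm hb κ hκ N]
  have h1 : ∀ i ∈ range N, (∫ x in Set.Ioc ((i:ℝ) * κ) ((i + 1) * κ), h x * gd x) ≤
      cm κ i * c i / 2 := by
    intro i hiN
    have hle : (i:ℝ) * κ ≤ ((i:ℝ) + 1) * κ := by nlinarith
    calc (∫ x in Set.Ioc ((i:ℝ) * κ) ((i + 1) * κ), h x * gd x) ≤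
        ∫ x in Set.Ioc ((i:ℝ) * κ) ((i + 1) * κ), c i * gd x := by
          apply setIntegral_mono_on hi.integrableOn (higd.const_mul (c i)).integrableOn
            measurableSet_Ioc
          intro x hx
          exact mul_le_mul_of_nonneg_right (hc i (Finset.mem_range.mp hiN) x hx.1 hx.2) (hgp x).le
      _ = c i * (Ph ((i + 1) * κ) - Ph (i * κ)) := by
          rw [integral_const_mul, int_Ioc hg hle]
      _ = cm κ i * c i / 2 := by unfold cm; ring
  have h2 : ∫ x in Set.Ioi ((N:ℝ) * κ), h x * gd x ≤ Ph (-((N:ℝ) * κ)) := by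
    rw [← int_Ioi hg]
    apply setIntegral_mono_on hi.integrableOn higd.integrableOn measurableSet_Ioi
    intro x _
    have := mul_le_mul_of_nonneg_right (hb x).2 (hgp x).le
    linarith
  have h3 := Finset.sum_le_sum h1
  rw [← Finset.sum_div] at h3
  linarith

theorem cell_lower (hg : S_Gauss) (h : ℝ → ℝ) (hm : Measurable h)
    (hb : ∀ x, 0 ≤ h x ∧ h x ≤ 1) (κ : ℝ) (hκ : 0 < κ) (N : ℕ) (c : ℕ → ℝ)
    (hc : ∀ i < N, ∀ x, (i:ℝ) * κ < x → x ≤ (i + 1) * κ → c i ≤ h x) :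
    (∑ i ∈ range N, cm κ i * c i) / 2 ≤ ∫ x in Set.Ioi (0:ℝ), h x * gd x := by
  have hgp : ∀ x, 0 < gd x := fun x => (hg.2.1 x).1
  have higd : Integrable gd := hg.2.2.2.2.2.2.2.1
  have hi := int_hgd hg h hm hb
  rw [split_cells hg h hm hb κ hκ N]
  have h1 : ∀ i ∈ range N, cm κ i * c i / 2 ≤
      (∫ x in Set.Ioc ((i:ℝ) * κ) ((i + 1) * κ), h x * gd x) := by
    intro i hiN
    have hle : (i:ℝ) * κ ≤ ((i:ℝ) + 1) * κ := by nlinarith
    calc cm κ i * c i / 2 = c i * (Ph ((i + 1) * κ) - Ph (i * κ)) := by unfold cm; ring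
      _ = ∫ x in Set.Ioc ((i:ℝ) * κ) ((i + 1) * κ), c i * gd x := by
          rw [integral_const_mul, int_Ioc hg hle]
      _ ≤ (∫ x in Set.Ioc ((i:ℝ) * κ) ((i + 1) * κ), h x * gd x) := by
          apply setIntegral_mono_on (higd.const_mul (c i)).integrableOn hi.integrableOn
            measurableSet_Ioc
          intro x hx
          exact mul_le_mul_of_nonneg_right (hc i (Finset.mem_range.mp hiN) x hx.1 hx.2) (hgp x).le
  have h2 : 0 ≤ ∫ x in Set.Ioi ((N:ℝ) * κ), h x * gd x := by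
    apply setIntegral_nonneg measurableSet_Ioi
    intro x _
    exact mul_nonneg (hb x).1 (hgp x).le
  have h3 := Finset.sum_le_sum h1
  rw [← Finset.sum_div] at h3
  linarith

theorem fold (hg : S_Gauss) (h : ℝ → ℝ) (hm : Measurable h) (hb : ∀ x, 0 ≤ h x ∧ h x ≤ 1) :
    ∫ x, h x * gd x = (∫ x in Set.Ioi (0:ℝ), h x * gd x) +
      ∫ x in Set.Ioi (0:ℝ), h (-x) * gd x := by
  have hi := int_hgd hg h hm hb
  have h1 : (∫ x in Set.Ioi (0:ℝ), h (-x) * gd x) = ∫ x in Set.Iic (0:ℝ), h x * gd x := by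
    have := integral_comp_neg_Ioi (0:ℝ) (fun x => h x * gd x)
    rw [neg_zero] at this
    rw [← this]
    apply setIntegral_congr_fun measurableSet_Ioi
    intro x _
    simp only [gd_neg]
  rw [h1, add_comm, ← setIntegral_union]
  · rw [Set.Iic_union_Ioi, setIntegral_univ]
  · exact Set.Iic_disjoint_Ioi le_rfl
  · exact measurableSet_Ioi
  · exact hi.integrableOn
  · exact hi.integrableOn

theorem sembar (hg : S_Gauss) (ht : S_Tail7) : S_SemBar := by
  intro F δ Y θ q j hδ hF hFb hθ1 hθ2 hY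
  have hs1 : 8 * q * δ ≤ √θ := by
    rw [show (8 * (q:ℝ) * δ) = √((8 * q * δ) ^ 2) from (Real.sqrt_sq (by positivity)).symm]
    exact Real.sqrt_le_sqrt hθ1
  have hs2 : √θ ≤ 8 * (q + 1) * δ := by
    rw [show (8 * ((q:ℝ) + 1) * δ) = √((8 * (q + 1) * δ) ^ 2) from
      (Real.sqrt_sq (by positivity)).symm]
    exact Real.sqrt_le_sqrt hθ2
  have hFm : Measurable F := hF.measurable
  have hhm : Measurable (fun x : ℝ => F (Y + √θ * x)) := hFm.comp (by fun_prop)
  have hhm' : Measurable (fun x : ℝ => F (Y + √θ * (-x))) := hFm.comp (by fun_prop)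
  unfold heat
  rw [fold hg (fun x => F (Y + √θ * x)) hhm (fun x => hFb _)]
  have hneg : (∫ x in Set.Ioi (0:ℝ), F (Y + √θ * (-x)) * gd x) ≤
      (∑ i ∈ range (56 * (q + 1)), cm (1 / (8 * (q + 1))) i * F ((j - 1 - i) * δ)) / 2 +
        2 / 10 ^ 12 := by
    have h1 := cell_upper hg (fun x => F (Y + √θ * (-x))) hhm' (fun x => hFb _)
      (1 / (8 * ((q:ℝ) + 1))) (by positivity) (56 * (q + 1)) (fun i => F ((j - 1 - i) * δ))
      (by
        intro i _ x hx1 hx2
        apply hF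
        have hx0 : 0 < x := lt_of_le_of_lt (by positivity) hx1
        have h3 : √θ * x ≤ 8 * (q + 1) * δ * x := mul_le_mul_of_nonneg_right hs2 hx0.le
        have h4 : 8 * (q + 1) * δ * x ≤ (i + 1) * δ := by
          calc 8 * (q + 1) * δ * x ≤ 8 * (q + 1) * δ * ((i + 1) * (1 / (8 * ((q:ℝ) + 1)))) := by
                gcongr
            _ = (i + 1) * δ := by field_simp
        nlinarith)
    have h2 : ((56 * (q + 1) : ℕ) : ℝ) * (1 / (8 * ((q:ℝ) + 1))) = 7 := by
      push_cast; field_simp; norm_num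
    rw [h2] at h1
    linarith [ht.1]
  have hpos : (∫ x in Set.Ioi (0:ℝ), F (Y + √θ * x) * gd x) ≤
      (if q = 0 then F (j * δ) else
          ∑ i ∈ range (56 * q), cm (1 / (8 * q)) i * F ((j + i) * δ)) / 2 + 2 / 10 ^ 12 := by
    by_cases hq : q = 0
    · rw [if_pos hq]
      have hgp : ∀ x, 0 < gd x := fun x => (hg.2.1 x).1
      have higd : Integrable gd := hg.2.2.2.2.2.2.2.1
      have hi := int_hgd hg (fun x => F (Y + √θ * x)) hhm (fun x => hFb _)
      have h1 : (∫ x in Set.Ioi (0:ℝ), F (Y + √θ * x) * gd x) ≤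
          ∫ x in Set.Ioi (0:ℝ), F (j * δ) * gd x := by
        apply setIntegral_mono_on hi.integrableOn (higd.const_mul _).integrableOn measurableSet_Ioi
        intro x hx
        apply mul_le_mul_of_nonneg_right _ (hgp x).le
        apply hF
        have : 0 ≤ √θ * x := mul_nonneg (Real.sqrt_nonneg _) (le_of_lt hx)
        linarith
      have h2 : ∫ x in Set.Ioi (0:ℝ), F (j * δ) * gd x = F (j * δ) / 2 := by
        rw [integral_const_mul, int_Ioi hg]
        have h3 := hg.2.2.1 0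
        rw [neg_zero] at h3 ⊢
        have : Ph 0 = 1 / 2 := by linarith
        rw [this]; ring
      rw [h2] at h1
      have : (0:ℝ) ≤ 2 / 10 ^ 12 := by positivity
      linarith
    · rw [if_neg hq]
      have hq1 : (1:ℝ) ≤ q := by exact_mod_cast Nat.one_le_iff_ne_zero.mpr hq
      have h1 := cell_upper hg (fun x => F (Y + √θ * x)) hhm (fun x => hFb _)
        (1 / (8 * (q:ℝ))) (by positivity) (56 * q) (fun i => F ((j + i) * δ))
        (by
          intro i _ x hx1 hx2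
          apply hF
          have hx0 : 0 < x := lt_of_le_of_lt (by positivity) hx1
          have h3 : 8 * q * δ * x ≤ √θ * x := mul_le_mul_of_nonneg_right hs1 hx0.le
          have h4 : i * δ ≤ 8 * q * δ * x := by
            calc (i:ℝ) * δ = 8 * q * δ * (i * (1 / (8 * (q:ℝ)))) := by field_simp
              _ ≤ 8 * q * δ * x := by gcongr
          nlinarith)
      have h2 : ((56 * q : ℕ) : ℝ) * (1 / (8 * (q:ℝ))) = 7 := by
        push_cast; field_simp; norm_num
      rw [h2] at h1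
      linarith [ht.1]
  calc _ ≤ _ := add_le_add hpos hneg
    _ = _ := by ring

theorem semp (hg : S_Gauss) : S_SemP := by
  intro g δ B q hδ hq hga hgb
  have hq1 : (1:ℝ) ≤ q := by exact_mod_cast hq
  have hgm : Measurable g := hga.measurable
  have hs : √((8 * (q:ℝ) * δ) ^ 2) = 8 * q * δ := Real.sqrt_sq (by positivity)
  unfold heat
  rw [hs]
  have hhm : Measurable (fun x : ℝ => refl B g (B + 8 * q * δ * x)) := by
    unfold W841.PK.refl
    exact hgm.comp (by fun_prop)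
  rw [fold hg (fun x => refl B g (B + 8 * q * δ * x)) hhm (fun x => hgb _)]
  have hN : ∀ ε : ℝ, |ε| = 1 → (∑ i ∈ range (56 * q), cm (1 / (8 * q)) i * g (B + (i + 1) * δ)) / 2 ≤
      ∫ x in Set.Ioi (0:ℝ), refl B g (B + 8 * q * δ * (ε * x)) * gd x := by
    intro ε hε
    have hhm2 : Measurable (fun x : ℝ => refl B g (B + 8 * q * δ * (ε * x))) := by
      unfold W841.PK.refl
      exact hgm.comp (by fun_prop)
    apply cell_lower hg (fun x => refl B g (B + 8 * q * δ * (ε * x))) hhm2 (fun x => hgb _)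
      (1 / (8 * (q:ℝ))) (by positivity) (56 * q) (fun i => g (B + (i + 1) * δ))
    intro i _ x hx1 hx2
    unfold W841.PK.refl
    apply hga
    have hx0 : 0 < x := lt_of_le_of_lt (by positivity) hx1
    have h3 : |B + 8 * q * δ * (ε * x) - B| = 8 * q * δ * x := by
      rw [show B + 8 * q * δ * (ε * x) - B = 8 * q * δ * (ε * x) by ring, abs_mul (8 * (q:ℝ) * δ),
        abs_mul ε x, hε, one_mul, abs_of_pos hx0, abs_of_pos (by positivity)]
    rw [h3]
    have h4 : 8 * q * δ * x ≤ (i + 1) * δ := by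
      calc 8 * q * δ * x ≤ 8 * q * δ * ((i + 1) * (1 / (8 * (q:ℝ)))) := by gcongr
        _ = (i + 1) * δ := by field_simp
    linarith
  have h1 := hN 1 (by simp)
  have h2 := hN (-1) (by simp)
  simp only [one_mul, neg_mul] at h1 h2
  linarith

end

end Pool.Agent.W925.PK
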