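import Pool.Agent.W841.PK.Stm2

/-! The fluid limit lemma (project PK, MP_350a25_pr). -/

set_option autoImplicit false

namespace Pool.Agent.W925.PK

open W841.PK
open Finset
open scoped Classical

noncomputable section

variable {n : ℕ}

theorem gw_meas (hm : S_MeasP) (S : Finset (Fin n)) (ρ : Rule n) (hρ : IsRule ρ) (b : Bool)
    (r0 r1 : ℕ) (f : ℕ → ℝ → ℝ) (U : ℕ → SimpleGraph (Fin n) → Finset (Fin n))
    (hU : ∀ t, Meas S ρ t (U t))
    (hUs : ∀ t G, U t G ⊆ if b then SS S ρ t G else NN S ρ t G) (j : ℕ) (a : Fin n) :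
    Meas S ρ j (fun G => gw S ρ G r0 r1 f U j a) := by
  intro G G' hG
  obtain ⟨-, hR, hw, -, -, -, -, -, -, -, hz⟩ := hm n S ρ j G G' hρ hG
  have hUU : U j G = U j G' := hU j G G' hG
  have hrr : rr S ρ j G = rr S ρ j G' := by
    unfold rr NN; rw [hR]
  have hNP : NP S ρ j G ↔ NP S ρ j G' := by
    unfold NP; rw [hR, hw]
  show gw S ρ G r0 r1 f U j a = gw S ρ G' r0 r1 f U j a
  unfold gw
  rw [hrr, hUU]
  by_cases h : NP S ρ j G' ∧ r0 < rr S ρ j G' ∧ rr S ρ j G' ≤ r1 ∧ a ∈ U j G'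
  · have h' : NP S ρ j G ∧ r0 < rr S ρ j G' ∧ rr S ρ j G' ≤ r1 ∧ a ∈ U j G' :=
      ⟨hNP.mpr h.1, h.2⟩
    rw [if_pos h, if_pos h']
    have ha : a ∈ RR S ρ j G := by
      have h1 := hUs j G' h.2.2.2
      rw [hR]
      split_ifs at h1
      · exact SS_sub _ _ _ _ h1
      · exact NN_sub _ _ _ _ h1
    rw [hz a ha]
  · have h' : ¬ (NP S ρ j G ∧ r0 < rr S ρ j G' ∧ rr S ρ j G' ≤ r1 ∧ a ∈ U j G') :=
      fun h'' => h ⟨hNP.mp h''.1, h''.2⟩
    rw [if_neg h, if_neg h']

theorem gw_bound (V0 C0 : ℝ) (hV0 : 1 ≤ V0) (hC0 : 0 < C0) (hn : 1 ≤ n) (S : Finset (Fin n))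
    (ρ : Rule n) (G : SimpleGraph (Fin n)) (r0 r1 : ℕ) (f f' : ℕ → ℝ → ℝ)
    (U : ℕ → SimpleGraph (Fin n) → Finset (Fin n))
    (hr0 : (n : ℝ) / V0 ≤ r0)
    (hd : ∀ r, r0 ≤ r → r ≤ r1 → ∀ z, HasDerivAt (f r) (f' r z) z)
    (hb : ∀ r, r0 ≤ r → r ≤ r1 → ∀ z, |f' r z| ≤ C0) (j : ℕ) (a : Fin n) :
    |gw S ρ G r0 r1 f U j a| ≤ C0 * V0 / √(n : ℝ) := by
  have hn1 : (1:ℝ) ≤ n := by exact_mod_cast hn
  unfold gw
  split_ifs with h
  · obtain ⟨-, h1, h2, -⟩ := h
    set r := rr S ρ j G with hr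
    have hr1 : r0 ≤ r - 1 := by omega
    have hr2 : r - 1 ≤ r1 := by omega
    have hcast : ((r0 : ℕ) : ℝ) ≤ (r : ℝ) - 1 := by
      have : r0 + 1 ≤ r := h1
      have : ((r0 : ℝ) + 1) ≤ r := by exact_mod_cast this
      linarith
    have hpos : 0 < (n : ℝ) / V0 := by positivity
    have hrp : 0 < (r : ℝ) - 1 := by linarith
    have hh0 : 0 ≤ hh n r := by unfold hh; positivity
    have hh1 : hh n r ≤ V0 / √(n : ℝ) := by
      unfold hh
      rw [div_le_div_iff₀ hrp (by positivity), Real.mul_self_sqrt (by linarith)]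
      have : (n : ℝ) / V0 ≤ (r : ℝ) - 1 := by linarith
      rw [div_le_iff₀ (by linarith)] at this
      linarith
    have hmv : ‖f (r - 1) (zz S ρ j G a + hh n r) - f (r - 1) (zz S ρ j G a - hh n r)‖ ≤
        C0 * ‖(zz S ρ j G a + hh n r) - (zz S ρ j G a - hh n r)‖ := by
      apply Convex.norm_image_sub_le_of_norm_hasDerivWithin_le (f := f (r - 1)) (f' := f' (r - 1))
        (s := Set.univ)
      · intro x _
        exact (hd (r - 1) hr1 hr2 x).hasDerivWithinAt
      · intro x _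
        rw [Real.norm_eq_abs]
        exact hb (r - 1) hr1 hr2 x
      · exact convex_univ
      · trivial
      · trivial
    rw [Real.norm_eq_abs, Real.norm_eq_abs] at hmv
    have h3 : |zz S ρ j G a + hh n r - (zz S ρ j G a - hh n r)| = 2 * hh n r := by
      rw [show zz S ρ j G a + hh n r - (zz S ρ j G a - hh n r) = 2 * hh n r by ring]
      exact abs_of_nonneg (by linarith)
    rw [h3] at hmv
    rw [abs_div, abs_of_pos (by norm_num : (0:ℝ) < 2)]
    calc _ ≤ (C0 * (2 * hh n r)) / 2 := by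
          apply div_le_div_of_nonneg_right hmv (by norm_num)
      _ = C0 * hh n r := by ring
      _ ≤ C0 * (V0 / √(n : ℝ)) := by gcongr
      _ = _ := by ring
  · rw [abs_zero]; positivity

theorem fl (_hb : S_Basic) (hm : S_MeasP) (hp : S_PR) (hy : S_YSum) (hr : S_FLrem) : S_FL := by
  intro V0 C0 ε hV0 hC0 hε
  obtain ⟨C, hC1, n1, hPR⟩ := hp 1
  obtain ⟨n2, hY⟩ := hy V0 (ε / 2) (ε / (2 * C0 * V0)) hV0 (by positivity) (by positivity)
  obtain ⟨n3, hR⟩ := hr V0 C0 C (ε / 2) hV0 hC0 hC1 (by positivity)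
  obtain ⟨n4, hn4⟩ := exists_nat_gt (2 / ε)
  refine ⟨max (max (max n1 n2) (max n3 n4)) 1, fun n hn S ρ hS hρ b r0 r1 f f' U hr0 hd hbd hlip hheat hU hUs => ?_⟩
  have hn1 : n1 ≤ n := le_trans (le_trans (le_max_left _ _) (le_trans (le_max_left _ _) (le_max_left _ _))) hn
  have hn2 : n2 ≤ n := le_trans (le_trans (le_max_right _ _) (le_trans (le_max_left _ _) (le_max_left _ _))) hn
  have hn3 : n3 ≤ n := le_trans (le_trans (le_max_left _ _) (le_trans (le_max_right _ _) (le_max_left _ _))) hn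
  have hn4' : n4 ≤ n := le_trans (le_trans (le_max_right _ _) (le_trans (le_max_right _ _) (le_max_left _ _))) hn
  have hn5 : 1 ≤ n := le_trans (le_max_right _ _) hn
  have hnr : (1:ℝ) ≤ n := by exact_mod_cast hn5
  have hsp : 0 < √(n : ℝ) := Real.sqrt_pos.mpr (by linarith)
  have hYn := hY n hn2 S ρ hS hρ b (C0 * V0 / √(n : ℝ)) (fun j G a => gw S ρ G r0 r1 f U j a)
    (by positivity)
    (fun t a => gw_meas hm S ρ hρ b r0 r1 f U hU hUs t a)
    (fun t G a => gw_bound V0 C0 hV0 hC0 hn5 S ρ G r0 r1 f f' U hr0 hd hbd t a)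
    (by
      intro t G a hab
      unfold gw
      rw [if_neg]
      rintro ⟨-, -, -, hmem⟩
      have h1 := hUs t G hmem
      cases b
      · simp only [Bool.false_eq_true, if_false] at h1 hab
        unfold NN at h1
        exact (Finset.mem_sdiff.mp h1).2 hab
      · simp only [if_true] at h1 hab
        unfold SS at h1
        exact hab (Finset.mem_inter.mp h1).2)
    (by
      intro t G a ha
      unfold gw
      rw [if_neg]
      rintro ⟨-, -, -, hmem⟩
      have h1 := hUs t G hmem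
      apply ha
      split_ifs at h1
      · exact SS_sub _ _ _ _ h1
      · exact NN_sub _ _ _ _ h1)
  have hpr : Pr (fun G : SimpleGraph (Fin n) => ¬ PRev C G) ≤ ε / 2 := by
    refine (hPR n hn1).trans ?_
    have h1 : 2 / ε < n := lt_of_lt_of_le hn4 (by exact_mod_cast hn4')
    rw [pow_one, div_le_div_iff₀ (by linarith) (by norm_num)]
    rw [div_lt_iff₀ hε] at h1
    linarith
  have hthr : ε / (2 * C0 * V0) * (C0 * V0 / √(n : ℝ)) * √(n : ℝ) * uu b n = ε / 2 * uu b n := by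
    field_simp
  calc Pr (fun G => ∃ t ≤ n, ε * uu b n < |∑ j ∈ range t, inc S ρ G r0 r1 f U j|) ≤
      Pr (fun G => ¬ PRev C G ∨ ∃ t ≤ n, ε / (2 * C0 * V0) * (C0 * V0 / √(n : ℝ)) * √(n : ℝ) * uu b n <
        |∑ j ∈ range t, if Act S ρ j G V0 then
          Yv S ρ j G (fun a => gw S ρ G r0 r1 f U j a) else 0|) := by
        apply Pr_mono
        intro G ⟨t, ht, hG⟩
        by_cases hP : PRev C G
        · right
          refine ⟨t, ht, ?_⟩
          rw [hthr]
          have h1 := hR n hn3 S ρ G hS hρ hP b r0 r1 f f' U hr0 hd hbd hlip hheat hUs t ht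
          by_contra hcon
          push Not at hcon
          have h2 : |∑ j ∈ range t, inc S ρ G r0 r1 f U j| ≤
              |∑ j ∈ range t, (inc S ρ G r0 r1 f U j +
                if Act S ρ j G V0 then Yv S ρ j G (gw S ρ G r0 r1 f U j) else 0)| +
              |∑ j ∈ range t, if Act S ρ j G V0 then Yv S ρ j G (gw S ρ G r0 r1 f U j) else 0| := by
            rw [Finset.sum_add_distrib]
            have := abs_sub (∑ j ∈ range t, inc S ρ G r0 r1 f U j +
              ∑ j ∈ range t, (if Act S ρ j G V0 then Yv S ρ j G (gw S ρ G r0 r1 f U j) else 0))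
              (∑ j ∈ range t, (if Act S ρ j G V0 then Yv S ρ j G (gw S ρ G r0 r1 f U j) else 0))
            rwa [add_sub_cancel_right] at this
          have h3 : |∑ j ∈ range t, if Act S ρ j G V0 then Yv S ρ j G (gw S ρ G r0 r1 f U j) else 0|
              ≤ ε / 2 * uu b n := hcon
          linarith
        · left; exact hP
    _ ≤ Pr (fun G => ¬ PRev C G) + Pr (fun G => ∃ t ≤ n,
        ε / (2 * C0 * V0) * (C0 * V0 / √(n : ℝ)) * √(n : ℝ) * uu b n <
        |∑ j ∈ range t, if Act S ρ j G V0 then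
          Yv S ρ j G (fun a => gw S ρ G r0 r1 f U j a) else 0|) := Pr_or_le _ _
    _ ≤ ε / 2 + ε / 2 := add_le_add hpr hYn
    _ = ε := by ring

end

end Pool.Agent.W925.PK
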