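import Pool.Agent.W841.PK.Stm2

/-! Consequences of the discrepancy event (project PK, MP_350a25_pr). -/

set_option autoImplicit false

namespace Pool.Agent.W925.PK

open W841.PK
open Finset
open scoped Classical

noncomputable section

variable {n : ℕ}

theorem bd_mono (hn : 2 ≤ n) {C : ℝ} (hC : 1 ≤ C) {A A' B B' : Finset (Fin n)}
    (hA : A' ⊆ A) (hB : B' ⊆ B) :
    C * √((A'.card : ℝ) * B'.card * ((A'.card : ℝ) + B'.card) * Real.log n) ≤
      C * √((A.card : ℝ) * B.card * ((A.card : ℝ) + B.card) * Real.log n) := by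
  have h1 : (A'.card : ℝ) ≤ A.card := by exact_mod_cast card_le_card hA
  have h2 : (B'.card : ℝ) ≤ B.card := by exact_mod_cast card_le_card hB
  have h3 : 0 ≤ Real.log n := Real.log_natCast_nonneg n
  gcongr

theorem signs (hn : 2 ≤ n) {C : ℝ} (hC : 1 ≤ C) {G : SimpleGraph (Fin n)} (hP : PRev C G)
    (p q : Fin n → Prop) (A B : Finset (Fin n)) :
    ∑ a ∈ A, ∑ b ∈ B, (if p a then (1:ℝ) else -1) * (if q b then 1 else -1) * ee G a b ≤
      4 * C * √((A.card : ℝ) * B.card * ((A.card : ℝ) + B.card) * Real.log n) := by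
  have key : ∑ a ∈ A, ∑ b ∈ B, (if p a then (1:ℝ) else -1) * (if q b then 1 else -1) * ee G a b =
      ∑ a ∈ A.filter p, ∑ b ∈ B.filter q, ee G a b
      - ∑ a ∈ A.filter p, ∑ b ∈ B.filter (fun b => ¬ q b), ee G a b
      - ∑ a ∈ A.filter (fun a => ¬ p a), ∑ b ∈ B.filter q, ee G a b
      + ∑ a ∈ A.filter (fun a => ¬ p a), ∑ b ∈ B.filter (fun b => ¬ q b), ee G a b := by
    have h1 : ∀ a, ∑ b ∈ B, (if p a then (1:ℝ) else -1) * (if q b then 1 else -1) * ee G a b =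
        (if p a then (1:ℝ) else -1) * (∑ b ∈ B.filter q, ee G a b
          - ∑ b ∈ B.filter (fun b => ¬ q b), ee G a b) := by
      intro a
      rw [← Finset.sum_filter_add_sum_filter_not B q]
      rw [mul_sub, Finset.mul_sum, Finset.mul_sum, sub_eq_add_neg, ← Finset.sum_neg_distrib]
      congr 1
      · apply Finset.sum_congr rfl
        intro b hb
        rw [if_pos (Finset.mem_filter.mp hb).2]; ring
      · apply Finset.sum_congr rfl
        intro b hb
        rw [if_neg (Finset.mem_filter.mp hb).2]; ring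
    rw [Finset.sum_congr rfl (fun a _ => h1 a)]
    rw [← Finset.sum_filter_add_sum_filter_not A p]
    have h2 : ∑ a ∈ A.filter p, (if p a then (1:ℝ) else -1) * (∑ b ∈ B.filter q, ee G a b
          - ∑ b ∈ B.filter (fun b => ¬ q b), ee G a b) =
        ∑ a ∈ A.filter p, (∑ b ∈ B.filter q, ee G a b
          - ∑ b ∈ B.filter (fun b => ¬ q b), ee G a b) := by
      apply Finset.sum_congr rfl
      intro a ha
      rw [if_pos (Finset.mem_filter.mp ha).2]; ring
    have h3 : ∑ a ∈ A.filter (fun a => ¬ p a),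
        (if p a then (1:ℝ) else -1) * (∑ b ∈ B.filter q, ee G a b
          - ∑ b ∈ B.filter (fun b => ¬ q b), ee G a b) =
        - ∑ a ∈ A.filter (fun a => ¬ p a), (∑ b ∈ B.filter q, ee G a b
          - ∑ b ∈ B.filter (fun b => ¬ q b), ee G a b) := by
      rw [← Finset.sum_neg_distrib]
      apply Finset.sum_congr rfl
      intro a ha
      rw [if_neg (Finset.mem_filter.mp ha).2]; ring
    rw [h2, h3, Finset.sum_sub_distrib, Finset.sum_sub_distrib]
    ring
  rw [key]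
  have e1 := abs_le.mp ((hP (A.filter p) (B.filter q)).trans
    (bd_mono hn hC (Finset.filter_subset _ A) (Finset.filter_subset _ B)))
  have e2 := abs_le.mp ((hP (A.filter p) (B.filter (fun b => ¬ q b))).trans
    (bd_mono hn hC (Finset.filter_subset _ A) (Finset.filter_subset _ B)))
  have e3 := abs_le.mp ((hP (A.filter (fun a => ¬ p a)) (B.filter q)).trans
    (bd_mono hn hC (Finset.filter_subset _ A) (Finset.filter_subset _ B)))
  have e4 := abs_le.mp ((hP (A.filter (fun a => ¬ p a)) (B.filter (fun b => ¬ q b))).trans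
    (bd_mono hn hC (Finset.filter_subset _ A) (Finset.filter_subset _ B)))
  linarith [e1.2, e2.1, e3.1, e4.2]

theorem abs_eq_sign (x : ℝ) : |x| = (if 0 ≤ x then (1:ℝ) else -1) * x := by
  split_ifs with h
  · rw [abs_of_nonneg h]; ring
  · rw [abs_of_neg (not_le.mp h)]; ring

theorem part2 (hn : 2 ≤ n) {C : ℝ} (hC : 1 ≤ C) {G : SimpleGraph (Fin n)} (hP : PRev C G)
    (β : Fin n → ℝ) (A B : Finset (Fin n)) (hβ : ∀ b, |β b| ≤ 1) :
    ∑ a ∈ A, |∑ b ∈ B, β b * ee G a b| ≤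
        4 * C * √((A.card : ℝ) * B.card * ((A.card : ℝ) + B.card) * Real.log n) := by
  set s : Fin n → ℝ := fun a => if 0 ≤ ∑ b ∈ B, β b * ee G a b then (1:ℝ) else -1 with hs
  have h1 : ∑ a ∈ A, |∑ b ∈ B, β b * ee G a b| = ∑ b ∈ B, β b * ∑ a ∈ A, s a * ee G a b := by
    rw [Finset.sum_congr rfl (fun a _ => abs_eq_sign (∑ b ∈ B, β b * ee G a b))]
    simp_rw [Finset.mul_sum]
    rw [Finset.sum_comm]
    apply Finset.sum_congr rfl
    intro b _
    apply Finset.sum_congr rfl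
    intro a _
    rw [hs]; simp only; ring
  have h2 : ∑ b ∈ B, β b * ∑ a ∈ A, s a * ee G a b ≤ ∑ b ∈ B, |∑ a ∈ A, s a * ee G a b| := by
    apply Finset.sum_le_sum
    intro b _
    calc β b * ∑ a ∈ A, s a * ee G a b ≤ |β b * ∑ a ∈ A, s a * ee G a b| := le_abs_self _
      _ = |β b| * |∑ a ∈ A, s a * ee G a b| := abs_mul _ _
      _ ≤ 1 * |∑ a ∈ A, s a * ee G a b| := by
          apply mul_le_mul_of_nonneg_right (hβ b) (abs_nonneg _)
      _ = _ := one_mul _
  have h3 : ∑ b ∈ B, |∑ a ∈ A, s a * ee G a b| =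
      ∑ a ∈ A, ∑ b ∈ B, (if 0 ≤ ∑ b ∈ B, β b * ee G a b then (1:ℝ) else -1) *
        (if 0 ≤ ∑ a ∈ A, s a * ee G a b then (1:ℝ) else -1) * ee G a b := by
    rw [Finset.sum_congr rfl (fun b _ => abs_eq_sign (∑ a ∈ A, s a * ee G a b))]
    simp_rw [Finset.mul_sum]
    rw [Finset.sum_comm]
    apply Finset.sum_congr rfl
    intro a _
    apply Finset.sum_congr rfl
    intro b _
    rw [hs]; simp only; ring
  rw [h1]
  refine h2.trans ?_
  rw [h3]
  exact signs hn hC hP _ _ A B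

theorem part1 (hn : 2 ≤ n) {C : ℝ} (hC : 1 ≤ C) {G : SimpleGraph (Fin n)} (hP : PRev C G)
    (α β : Fin n → ℝ) (A B : Finset (Fin n)) (hα : ∀ a, |α a| ≤ 1) (hβ : ∀ b, |β b| ≤ 1) :
    |∑ a ∈ A, ∑ b ∈ B, α a * β b * ee G a b| ≤
        4 * C * √((A.card : ℝ) * B.card * ((A.card : ℝ) + B.card) * Real.log n) := by
  refine le_trans ?_ (part2 hn hC hP β A B hβ)
  refine (Finset.abs_sum_le_sum_abs _ _).trans ?_
  apply Finset.sum_le_sum
  intro a _
  have : ∑ b ∈ B, α a * β b * ee G a b = α a * ∑ b ∈ B, β b * ee G a b := by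
    rw [Finset.mul_sum]
    apply Finset.sum_congr rfl
    intro b _; ring
  rw [this, abs_mul]
  calc |α a| * |∑ b ∈ B, β b * ee G a b| ≤ 1 * |∑ b ∈ B, β b * ee G a b| :=
        mul_le_mul_of_nonneg_right (hα a) (abs_nonneg _)
    _ = _ := one_mul _

theorem dyadic (x : ℝ) : ∀ L : ℕ, |x| < 2 ^ L →
    x ^ 2 ≤ 1 + 3 * ∑ j ∈ range L, (if (2:ℝ) ^ j ≤ |x| then (4:ℝ) ^ j else 0) := by
  intro L
  induction L with
  | zero =>
    intro h
    have h' : |x| < 1 := by simpa using h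
    simp only [range_zero, sum_empty, mul_zero, add_zero]
    rw [← sq_abs]
    nlinarith [abs_nonneg x]
  | succ L ih =>
    intro h
    by_cases hx : |x| < 2 ^ L
    · refine (ih hx).trans ?_
      rw [Finset.sum_range_succ]
      have : (0:ℝ) ≤ if (2:ℝ) ^ L ≤ |x| then (4:ℝ) ^ L else 0 := by
        split_ifs <;> positivity
      linarith
    · have hx' : (2:ℝ) ^ L ≤ |x| := not_lt.mp hx
      have h1 : ∑ j ∈ range (L + 1), (if (2:ℝ) ^ j ≤ |x| then (4:ℝ) ^ j else 0) =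
          ∑ j ∈ range (L + 1), (4:ℝ) ^ j := by
        apply Finset.sum_congr rfl
        intro j hj
        rw [if_pos]
        refine le_trans ?_ hx'
        apply pow_le_pow_right₀ (by norm_num)
        exact Nat.lt_succ_iff.mp (Finset.mem_range.mp hj)
      have h2 : 1 + 3 * ∑ j ∈ range (L + 1), (4:ℝ) ^ j = 4 ^ (L + 1) := by
        rw [geom_sum_eq (by norm_num)]
        ring
      rw [h1, h2]
      have h3 : (4:ℝ) ^ (L + 1) = ((2:ℝ) ^ (L + 1)) ^ 2 := by
        rw [← pow_mul, mul_comm, pow_mul]; norm_num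
      rw [h3, ← sq_abs]
      exact pow_le_pow_left₀ (abs_nonneg x) h.le 2

theorem ee_abs_le (G : SimpleGraph (Fin n)) (a b : Fin n) : |ee G a b| ≤ 1 := by
  unfold ee
  split_ifs <;> simp

theorem lvl (hn : 2 ≤ n) {C : ℝ} (hC : 1 ≤ C) {G : SimpleGraph (Fin n)} (hP : PRev C G)
    (β : Fin n → ℝ) (B : Finset (Fin n)) (hβ : ∀ b, |β b| ≤ 1) (lam : ℝ) (hl : 0 < lam) :
    lam ^ 2 * ((univ.filter (fun a : Fin n => lam ≤ |∑ b ∈ B, β b * ee G a b|)).card : ℝ) ≤
      32 * C ^ 2 * (n : ℝ) ^ 2 * Real.log n := by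
  set A := univ.filter (fun a : Fin n => lam ≤ |∑ b ∈ B, β b * ee G a b|) with hA
  have h0 : 0 ≤ Real.log n := Real.log_natCast_nonneg n
  have h1 : lam * (A.card : ℝ) ≤ ∑ a ∈ A, |∑ b ∈ B, β b * ee G a b| := by
    rw [mul_comm, ← nsmul_eq_mul]
    apply Finset.card_nsmul_le_sum
    intro a ha
    exact (Finset.mem_filter.mp ha).2
  have h2 := h1.trans (part2 hn hC hP β A B hβ)
  have hAn : (A.card : ℝ) ≤ n := by
    exact_mod_cast (card_le_univ A).trans (by simp)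
  have hBn : (B.card : ℝ) ≤ n := by
    exact_mod_cast (card_le_univ B).trans (by simp)
  have h3 : √((A.card : ℝ) * B.card * ((A.card : ℝ) + B.card) * Real.log n) ≤
      √((A.card : ℝ) * n * ((n : ℝ) + n) * Real.log n) := by
    gcongr
  have h4 : lam * (A.card : ℝ) ≤ 4 * C * √((A.card : ℝ) * n * ((n : ℝ) + n) * Real.log n) :=
    h2.trans (by gcongr)
  have h5 : (lam * (A.card : ℝ)) ^ 2 ≤ (4 * C) ^ 2 * ((A.card : ℝ) * n * ((n : ℝ) + n) * Real.log n) := by
    have := pow_le_pow_left₀ (by positivity) h4 2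
    rwa [mul_pow (4 * C) _ 2, Real.sq_sqrt (by positivity)] at this
  by_cases hz : A.card = 0
  · rw [hz]; simp; positivity
  · have hpos : (0:ℝ) < A.card := by exact_mod_cast Nat.pos_of_ne_zero hz
    have h6 : (A.card : ℝ) * (lam ^ 2 * (A.card : ℝ)) ≤
        (A.card : ℝ) * (32 * C ^ 2 * (n : ℝ) ^ 2 * Real.log n) := by
      calc (A.card : ℝ) * (lam ^ 2 * (A.card : ℝ)) = (lam * (A.card : ℝ)) ^ 2 := by ring
        _ ≤ _ := h5
        _ = _ := by ring
    exact le_of_mul_le_mul_left h6 hpos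

theorem part3 (hn : 2 ≤ n) {C : ℝ} (hC : 1 ≤ C) {G : SimpleGraph (Fin n)} (hP : PRev C G)
    (β : Fin n → ℝ) (B : Finset (Fin n)) (hβ : ∀ b, |β b| ≤ 1) :
    ∑ a, (∑ b ∈ B, β b * ee G a b) ^ 2 ≤ 400 * C ^ 2 * (n : ℝ) ^ 2 * Real.log n ^ 2 := by
  set L := Nat.log 2 n + 1 with hL
  have hn0 : (2:ℝ) ≤ n := by exact_mod_cast hn
  have hnL : (n : ℝ) < 2 ^ L := by
    exact_mod_cast Nat.lt_pow_succ_log_self (by norm_num) n
  have hX : ∀ a, |∑ b ∈ B, β b * ee G a b| < 2 ^ L := by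
    intro a
    refine lt_of_le_of_lt ?_ hnL
    refine (Finset.abs_sum_le_sum_abs _ _).trans ?_
    calc ∑ b ∈ B, |β b * ee G a b| ≤ ∑ b ∈ B, (1:ℝ) := by
          apply Finset.sum_le_sum
          intro b _
          rw [abs_mul]
          exact mul_le_one₀ (hβ b) (abs_nonneg _) (ee_abs_le G a b)
      _ = B.card := by simp
      _ ≤ n := by exact_mod_cast (card_le_univ B).trans (by simp)
  have h1 : ∑ a, (∑ b ∈ B, β b * ee G a b) ^ 2 ≤
      ∑ a : Fin n, (1 + 3 * ∑ j ∈ range L,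
        (if (2:ℝ) ^ j ≤ |∑ b ∈ B, β b * ee G a b| then (4:ℝ) ^ j else 0)) :=
    Finset.sum_le_sum (fun a _ => dyadic _ L (hX a))
  have h2 : ∑ a : Fin n, (1 + 3 * ∑ j ∈ range L,
        (if (2:ℝ) ^ j ≤ |∑ b ∈ B, β b * ee G a b| then (4:ℝ) ^ j else 0)) =
      n + 3 * ∑ j ∈ range L, ((2:ℝ) ^ j) ^ 2 *
        ((univ.filter (fun a : Fin n => (2:ℝ) ^ j ≤ |∑ b ∈ B, β b * ee G a b|)).card : ℝ) := by
    rw [Finset.sum_add_distrib, ← Finset.mul_sum, Finset.sum_comm]
    congr 1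
    · simp
    · congr 1
      apply Finset.sum_congr rfl
      intro j _
      rw [← Finset.sum_filter, Finset.sum_const, nsmul_eq_mul, mul_comm]
      congr 1
      rw [← pow_mul, mul_comm, pow_mul]; norm_num
  have h3 : ∑ j ∈ range L, ((2:ℝ) ^ j) ^ 2 *
        ((univ.filter (fun a : Fin n => (2:ℝ) ^ j ≤ |∑ b ∈ B, β b * ee G a b|)).card : ℝ) ≤
      L * (32 * C ^ 2 * (n : ℝ) ^ 2 * Real.log n) := by
    calc _ ≤ ∑ j ∈ range L, (32 * C ^ 2 * (n : ℝ) ^ 2 * Real.log n) :=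
          Finset.sum_le_sum (fun j _ => lvl hn hC hP β B hβ _ (by positivity))
      _ = _ := by simp
  have hlog2 : (0.6931 : ℝ) < Real.log 2 := by
    have := Real.log_two_gt_d9; linarith
  have hlogn : Real.log 2 ≤ Real.log n := Real.log_le_log (by norm_num) hn0
  have hLle : (L : ℝ) ≤ 2.9 * Real.log n := by
    have h4 : ((Nat.log 2 n : ℕ) : ℝ) ≤ Real.logb 2 n := by
      have := Real.natLog_le_logb n 2
      exact_mod_cast this
    have h5 : Real.logb 2 n = Real.log n / Real.log 2 := rfl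
    rw [h5] at h4
    have h6 : Real.log n / Real.log 2 ≤ 1.443 * Real.log n := by
      rw [div_le_iff₀ (by linarith)]
      nlinarith
    rw [hL]; push_cast
    nlinarith
  have h7 : (n : ℝ) ≤ 1.05 * (C ^ 2 * (n : ℝ) ^ 2 * Real.log n ^ 2) := by
    have hl : (0.48 : ℝ) ≤ Real.log n ^ 2 := by nlinarith
    have hC2 : 1 ≤ C ^ 2 := by nlinarith
    have h8 : (2 * 0.48 : ℝ) ≤ (n : ℝ) * Real.log n ^ 2 := by
      apply mul_le_mul hn0 hl (by norm_num) (by linarith)
    have h9 : (n : ℝ) * (2 * 0.48) ≤ (n : ℝ) * ((n : ℝ) * Real.log n ^ 2) := by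
      apply mul_le_mul_of_nonneg_left h8 (by linarith)
    have h10 : (n : ℝ) * ((n : ℝ) * Real.log n ^ 2) ≤ C ^ 2 * ((n : ℝ) * ((n : ℝ) * Real.log n ^ 2)) := by
      apply le_mul_of_one_le_left (by positivity) hC2
    nlinarith
  have h11 : (L : ℝ) * (32 * C ^ 2 * (n : ℝ) ^ 2 * Real.log n) ≤
      2.9 * Real.log n * (32 * C ^ 2 * (n : ℝ) ^ 2 * Real.log n) := by
    apply mul_le_mul_of_nonneg_right hLle
    have : 0 ≤ Real.log n := by linarith
    positivity
  have h12 : 0 ≤ C ^ 2 * (n : ℝ) ^ 2 * Real.log n ^ 2 := by positivity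
  calc _ ≤ _ := h1
    _ = _ := h2
    _ ≤ n + 3 * (L * (32 * C ^ 2 * (n : ℝ) ^ 2 * Real.log n)) := by linarith
    _ ≤ 1.05 * (C ^ 2 * (n : ℝ) ^ 2 * Real.log n ^ 2)
          + 3 * (2.9 * Real.log n * (32 * C ^ 2 * (n : ℝ) ^ 2 * Real.log n)) := by linarith
    _ = (1.05 + 3 * 2.9 * 32) * (C ^ 2 * (n : ℝ) ^ 2 * Real.log n ^ 2) := by ring
    _ ≤ 400 * (C ^ 2 * (n : ℝ) ^ 2 * Real.log n ^ 2) := by
        apply mul_le_mul_of_nonneg_right _ h12
        norm_num
    _ = _ := by ring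

theorem prc : S_PRC := by
  intro n C G hn hC hP
  exact ⟨fun α β A B hα hβ => part1 hn hC hP α β A B hα hβ,
    fun β A B hβ => part2 hn hC hP β A B hβ,
    fun β B hβ => part3 hn hC hP β B hβ⟩

end

end Pool.Agent.W925.PK
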