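import Pool.Agent.W841.PK.Stm2

/-! Accumulated fluctuations (project PK, MP_350a25_pr). -/

set_option autoImplicit false

namespace Pool.Agent.W925.PK

open W841.PK
open Finset
open scoped Classical

noncomputable section

variable {n : ℕ}

theorem Xt_abs_le (S : Finset (Fin n)) (ρ : Rule n) (t : ℕ) (G : SimpleGraph (Fin n)) (a : Fin n) :
    |Xt S ρ t G a| ≤ n := by
  unfold Xt
  refine (Finset.abs_sum_le_sum_abs _ _).trans ?_
  calc ∑ b ∈ RR S ρ t G, |ee G a b| ≤ ∑ b ∈ RR S ρ t G, (1:ℝ) :=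
        Finset.sum_le_sum (fun b _ => abs_ee_le G a b)
    _ = (RR S ρ t G).card := by simp
    _ ≤ n := by exact_mod_cast (card_le_univ _).trans (by simp)

theorem uu_nonneg (b : Bool) (n : ℕ) : 0 ≤ uu b n := by
  unfold uu; split_ifs <;> positivity

theorem sqrt_le_nat {n : ℕ} (hn : 1 ≤ n) : √(n : ℝ) ≤ n := by
  have h1 : (1:ℝ) ≤ n := by exact_mod_cast hn
  rw [Real.sqrt_le_left (by linarith)]
  nlinarith

theorem uu_le (b : Bool) {n : ℕ} (hn : 1 ≤ n) : uu b n ≤ n := by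
  unfold uu; split_ifs
  · exact sqrt_le_nat hn
  · exact le_refl _

theorem sqrt_le_uu (b : Bool) {n : ℕ} (hn : 1 ≤ n) : √(n : ℝ) ≤ uu b n := by
  unfold uu; split_ifs
  · exact le_refl _
  · exact sqrt_le_nat hn

/-- the active part -/
def aw (V0 : ℝ) (S : Finset (Fin n)) (ρ : Rule n) (j : ℕ) (G : SimpleGraph (Fin n)) : ℝ :=
  if Act S ρ j G V0 then 1 + |Xt S ρ j G (ww S ρ j G)| / √(n : ℝ) else 0

theorem sum_aw (V0 C K1 : ℝ) (hn : 1 ≤ n) (S : Finset (Fin n)) (ρ : Rule n)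
    (G : SimpleGraph (Fin n))
    (hX : PRev C G → ∑ t ∈ range n, (if Act S ρ t G V0 then |Xt S ρ t G (ww S ρ t G)| else 0) ≤
      K1 * (n : ℝ) * √(n : ℝ) * √(Real.log n)) :
    ∑ j ∈ range n, aw V0 S ρ j G ≤ n * (1 + max K1 0 * √(Real.log n)) +
      (if PRev C G then 0 else (n : ℝ) * (1 + √(n : ℝ))) := by
  have hn1 : (1:ℝ) ≤ n := by exact_mod_cast hn
  have hs : 0 < √(n : ℝ) := Real.sqrt_pos.mpr (by linarith)
  by_cases hP : PRev C G
  · rw [if_pos hP, add_zero]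
    have h1 : ∀ j ∈ range n, aw V0 S ρ j G ≤
        1 + (if Act S ρ j G V0 then |Xt S ρ j G (ww S ρ j G)| else 0) / √(n : ℝ) := by
      intro j _
      unfold aw
      split_ifs
      · exact le_refl _
      · simp
    refine (Finset.sum_le_sum h1).trans ?_
    rw [Finset.sum_add_distrib, ← Finset.sum_div]
    have h2 := hX hP
    have h3 : (∑ t ∈ range n, (if Act S ρ t G V0 then |Xt S ρ t G (ww S ρ t G)| else 0)) / √(n : ℝ)
        ≤ n * (max K1 0 * √(Real.log n)) := by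
      rw [div_le_iff₀ hs]
      refine h2.trans ?_
      have : K1 ≤ max K1 0 := le_max_left _ _
      calc K1 * (n : ℝ) * √(n : ℝ) * √(Real.log n) ≤ max K1 0 * (n : ℝ) * √(n : ℝ) * √(Real.log n) := by
            gcongr
        _ = _ := by ring
    simp only [sum_const, card_range, nsmul_eq_mul, mul_one]
    linarith
  · rw [if_neg hP]
    have h1 : ∀ j ∈ range n, aw V0 S ρ j G ≤ 1 + √(n : ℝ) := by
      intro j _
      unfold aw
      split_ifs
      · have : |Xt S ρ j G (ww S ρ j G)| / √(n : ℝ) ≤ √(n : ℝ) := by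
          rw [div_le_iff₀ hs, Real.mul_self_sqrt (by linarith)]
          exact Xt_abs_le S ρ j G _
        linarith
      · positivity
    have h2 : ∑ j ∈ range n, aw V0 S ρ j G ≤ (n : ℝ) * (1 + √(n : ℝ)) := by
      refine (Finset.sum_le_sum h1).trans ?_
      simp only [sum_const, card_range, nsmul_eq_mul]
      exact le_refl _
    have : 0 ≤ (n : ℝ) * (1 + max K1 0 * √(Real.log n)) := by
      have : 0 ≤ max K1 0 := le_max_right _ _
      positivity
    linarith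

theorem e1V_eq (V0 K C γ : ℝ) (b : Bool) (S : Finset (Fin n)) (ρ : Rule n) (j : ℕ)
    (G : SimpleGraph (Fin n)) :
    e1V S ρ j G V0 K C γ b = K * γ * uu b n * (n : ℝ) ^ (-(9 / 16) : ℝ) * aw V0 S ρ j G +
      (if PRev C G then 0 else K * γ * (n : ℝ) ^ 2) := by
  unfold e1V aw
  by_cases h : Act S ρ j G V0 <;> simp [h]

theorem e2V_le (V0 K C γ : ℝ) (hK : 0 ≤ K) (b : Bool) (S : Finset (Fin n)) (ρ : Rule n) (j : ℕ)
    (G : SimpleGraph (Fin n)) :
    e2V S ρ j G V0 K C γ b ≤ K * γ ^ 2 * uu b n +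
      K * γ ^ 2 * uu b n ^ 2 * (n : ℝ) ^ (-(9 / 16) : ℝ) * aw V0 S ρ j G +
      (if PRev C G then 0 else K * γ ^ 2 * (n : ℝ) ^ 4) := by
  unfold e2V aw
  have := uu_nonneg b n
  by_cases h : Act S ρ j G V0
  · simp [h]
  · simp only [h, if_false, mul_zero, add_zero, zero_add]
    have : 0 ≤ K * γ ^ 2 * uu b n := by positivity
    linarith

theorem Ex_ind (c1 c2 C : ℝ) :
    Ex (fun G : SimpleGraph (Fin n) => c1 + (if PRev C G then 0 else c2)) =
      c1 + c2 * Pr (fun G : SimpleGraph (Fin n) => ¬ PRev C G) := by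
  rw [Ex_add, Ex_const]
  congr 1
  unfold Pr
  rw [← Ex_mul_left]
  apply Ex_congr
  intro G
  by_cases h : PRev C G <;> simp [h]

theorem log_bound {n : ℕ} (hn : 1 ≤ n) (K1 : ℝ) (hK1 : 0 ≤ K1) :
    1 + K1 * √(Real.log n) ≤ (1 + 4 * K1) * (n : ℝ) ^ ((1:ℝ) / 32) := by
  have hn1 : (1:ℝ) ≤ n := by exact_mod_cast hn
  have h1 : Real.log n ≤ (n : ℝ) ^ ((1:ℝ) / 16) / (1 / 16) :=
    Real.log_le_rpow_div (by linarith) (by norm_num)
  have h2 : √(Real.log n) ≤ 4 * (n : ℝ) ^ ((1:ℝ) / 32) := by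
    rw [Real.sqrt_le_left (by positivity)]
    refine h1.trans (le_of_eq ?_)
    rw [mul_pow, ← Real.rpow_natCast ((n : ℝ) ^ ((1:ℝ) / 32)) 2, ← Real.rpow_mul (by linarith)]
    norm_num
    ring
  have h3 : (1:ℝ) ≤ (n : ℝ) ^ ((1:ℝ) / 32) := Real.one_le_rpow hn1 (by norm_num)
  nlinarith [mul_le_mul_of_nonneg_left h2 hK1]

theorem ysum (hp : S_PR) (hx : S_SumX) (hml : S_ML) (hd : S_Drift) : S_YSum := by
  intro V0 ε lam hV0 hε hlam
  obtain ⟨C, hC1, n1, hPR⟩ := hp 6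
  obtain ⟨K, hK, n2, hD⟩ := hd V0 C hV0 hC1
  obtain ⟨K1, n3, hX⟩ := hx V0 C hV0 hC1
  set K1' := max K1 0 with hK1'
  have hK1n : 0 ≤ K1' := le_max_right _ _
  set M := 1 + 4 * K1' with hM
  have hMpos : 1 ≤ M := by linarith
  set Q := K / lam ^ 2 + K * M / lam ^ 2 + 3 * K / lam ^ 2 + 2 / lam * (K * M + 3 * K) with hQ
  have hQn : 0 ≤ Q := by positivity
  obtain ⟨n4, hn4⟩ : ∃ n4 : ℕ, ∀ n ≥ n4, Q * (n : ℝ) ^ (-(1 / 32) : ℝ) ≤ ε := by
    have ht : Filter.Tendsto (fun n : ℕ => Q * (n : ℝ) ^ (-(1 / 32) : ℝ)) Filter.atTop (nhds 0) := by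
      have h1 : Filter.Tendsto (fun x : ℝ => x ^ (-(1 / 32) : ℝ)) Filter.atTop (nhds 0) :=
        tendsto_rpow_neg_atTop (by norm_num)
      have h2 := (h1.comp tendsto_natCast_atTop_atTop).const_mul Q
      rw [mul_zero] at h2
      exact h2
    have := (ht.eventually (ge_mem_nhds hε))
    exact Filter.eventually_atTop.mp this
  refine ⟨max (max (max n1 n2) (max n3 n4)) 1, fun n hn S ρ hS hρ b γ g hγ hgm hgb hgs hgR => ?_⟩
  have hn1 : n1 ≤ n := le_trans (le_trans (le_max_left _ _) (le_trans (le_max_left _ _) (le_max_left _ _))) hn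
  have hn2 : n2 ≤ n := le_trans (le_trans (le_max_right _ _) (le_trans (le_max_left _ _) (le_max_left _ _))) hn
  have hn3 : n3 ≤ n := le_trans (le_trans (le_max_left _ _) (le_trans (le_max_right _ _) (le_max_left _ _))) hn
  have hn4' : n4 ≤ n := le_trans (le_trans (le_max_right _ _) (le_trans (le_max_right _ _) (le_max_left _ _))) hn
  have hn5 : 1 ≤ n := le_trans (le_max_right _ _) hn
  have hnr : (1:ℝ) ≤ n := by exact_mod_cast hn5
  have hsq : 1 ≤ √(n : ℝ) := by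
    rw [show (1:ℝ) = √1 by simp]; exact Real.sqrt_le_sqrt hnr
  have hu1 : √(n : ℝ) ≤ uu b n := sqrt_le_uu b hn5
  have hu2 : uu b n ≤ n := uu_le b hn5
  have hu3 : 1 ≤ uu b n := hsq.trans hu1
  set u := uu b n with hu
  set δ := (n : ℝ) ^ (-(9 / 16) : ℝ) with hδ
  have hδ0 : 0 < δ := Real.rpow_pos_of_pos (by linarith) _
  have hδ1 : δ ≤ 1 := Real.rpow_le_one_of_one_le_of_nonpos hnr (by norm_num)
  set L := 1 + K1' * √(Real.log n) with hL
  have hL0 : 0 ≤ L := by positivity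
  set lam' := lam * γ * √(n : ℝ) * u with hlam'
  have hlampos : 0 < lam' := by positivity
  have hml' := hml n S ρ n (fun j G => if Act S ρ j G V0 then Yv S ρ j G (g j G) else 0)
    (fun j G => e1V S ρ j G V0 K C γ b) (fun j G => e2V S ρ j G V0 K C γ b) lam' hlampos
    (fun j _ => (hD n hn2 S ρ j hS hρ b γ (g j) hγ.le (hgm j) (hgb j) (hgs j)).1)
    (fun j G => by
      unfold e1V
      have := uu_nonneg b n
      apply add_nonneg
      · split_ifs
        · positivity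
        · exact le_refl _
      · split_ifs
        · exact le_refl _
        · positivity)
    (fun j _ φ hφ => (hD n hn2 S ρ j hS hρ b γ (g j) hγ.le (hgm j) (hgb j) (hgs j)).2.1 φ hφ)
    (fun j _ => (hD n hn2 S ρ j hS hρ b γ (g j) hγ.le (hgm j) (hgb j) (hgs j)).2.2)
  have hpr := hPR n hn1
  -- first moment
  have hE1 : ∑ j ∈ range n, Ex (fun G => e1V S ρ j G V0 K C γ b) ≤
      K * γ * u * δ * n * L + 3 * K * γ * (n : ℝ) ^ 3 * (1 / (n : ℝ) ^ 6) := by
    rw [← Ex_sum]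
    have hpt : ∀ G : SimpleGraph (Fin n), ∑ j ∈ range n, e1V S ρ j G V0 K C γ b ≤
        K * γ * u * δ * n * L + (if PRev C G then 0 else 3 * K * γ * (n : ℝ) ^ 3) := by
      intro G
      rw [Finset.sum_congr rfl (fun j _ => e1V_eq V0 K C γ b S ρ j G), Finset.sum_add_distrib,
        ← Finset.mul_sum]
      have h1 := sum_aw V0 C K1 hn5 S ρ G (fun hP => hX n hn3 S ρ G hS hρ hP)
      have h2 : K * γ * u * δ * ∑ j ∈ range n, aw V0 S ρ j G ≤ K * γ * u * δ *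
          (n * L + (if PRev C G then 0 else (n : ℝ) * (1 + √(n : ℝ)))) := by
        apply mul_le_mul_of_nonneg_left h1
        positivity
      have h3 : ∑ j ∈ range n, (if PRev C G then (0:ℝ) else K * γ * (n : ℝ) ^ 2) =
          if PRev C G then 0 else K * γ * (n : ℝ) ^ 3 := by
        split_ifs
        · simp
        · simp; ring
      rw [h3]
      by_cases hP : PRev C G
      · simp only [hP, if_true, add_zero] at h2 ⊢
        linarith
      · simp only [hP, if_false] at h2 ⊢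
        have h4 : K * γ * u * δ * ((n : ℝ) * (1 + √(n : ℝ))) ≤ 2 * K * γ * (n : ℝ) ^ 3 := by
          have h5 : 1 + √(n : ℝ) ≤ 2 * n := by linarith [sqrt_le_nat hn5]
          have h6 : u * δ ≤ n * 1 := mul_le_mul hu2 hδ1 hδ0.le (by linarith)
          calc K * γ * u * δ * ((n : ℝ) * (1 + √(n : ℝ))) = K * γ * (u * δ) * ((n : ℝ) * (1 + √(n : ℝ))) := by ring
            _ ≤ K * γ * (n * 1) * ((n : ℝ) * (2 * n)) := by gcongr
            _ = _ := by ring
        nlinarith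
    refine (Ex_mono hpt).trans ?_
    rw [Ex_ind]
    gcongr
  have hE2 : ∑ j ∈ range n, Ex (fun G => e2V S ρ j G V0 K C γ b) ≤
      K * γ ^ 2 * u * n + K * γ ^ 2 * u ^ 2 * δ * n * L +
        3 * K * γ ^ 2 * (n : ℝ) ^ 5 * (1 / (n : ℝ) ^ 6) := by
    rw [← Ex_sum]
    have hpt : ∀ G : SimpleGraph (Fin n), ∑ j ∈ range n, e2V S ρ j G V0 K C γ b ≤
        K * γ ^ 2 * u * n + K * γ ^ 2 * u ^ 2 * δ * n * L +
          (if PRev C G then 0 else 3 * K * γ ^ 2 * (n : ℝ) ^ 5) := by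
      intro G
      refine (Finset.sum_le_sum (fun j _ => e2V_le V0 K C γ hK b S ρ j G)).trans ?_
      rw [Finset.sum_add_distrib, Finset.sum_add_distrib]
      have hm : ∑ j ∈ range n, K * γ ^ 2 * u ^ 2 * δ * aw V0 S ρ j G =
          K * γ ^ 2 * u ^ 2 * δ * ∑ j ∈ range n, aw V0 S ρ j G := (Finset.mul_sum _ _ _).symm
      have h1 := sum_aw V0 C K1 hn5 S ρ G (fun hP => hX n hn3 S ρ G hS hρ hP)
      have h2 : K * γ ^ 2 * u ^ 2 * δ * ∑ j ∈ range n, aw V0 S ρ j G ≤ K * γ ^ 2 * u ^ 2 * δ *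
          (n * L + (if PRev C G then 0 else (n : ℝ) * (1 + √(n : ℝ)))) := by
        apply mul_le_mul_of_nonneg_left h1
        positivity
      have h3 : ∑ j ∈ range n, (if PRev C G then (0:ℝ) else K * γ ^ 2 * (n : ℝ) ^ 4) =
          if PRev C G then 0 else K * γ ^ 2 * (n : ℝ) ^ 5 := by
        split_ifs
        · simp
        · simp; ring
      have h0 : ∑ j ∈ range n, K * γ ^ 2 * u = K * γ ^ 2 * u * n := by
        rw [Finset.sum_const, card_range, nsmul_eq_mul]; ring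
      rw [h0, hm, h3]
      by_cases hP : PRev C G
      · simp only [hP, if_true, add_zero] at h2 ⊢
        linarith
      · simp only [hP, if_false] at h2 ⊢
        have h4 : K * γ ^ 2 * u ^ 2 * δ * ((n : ℝ) * (1 + √(n : ℝ))) ≤ 2 * K * γ ^ 2 * (n : ℝ) ^ 5 := by
          have h5 : 1 + √(n : ℝ) ≤ 2 * n := by linarith [sqrt_le_nat hn5]
          have h7 : u ^ 2 ≤ (n : ℝ) ^ 2 := pow_le_pow_left₀ (by linarith) hu2 2
          have h6 : u ^ 2 * δ ≤ (n : ℝ) ^ 2 * 1 := mul_le_mul h7 hδ1 hδ0.le (by positivity)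
          calc K * γ ^ 2 * u ^ 2 * δ * ((n : ℝ) * (1 + √(n : ℝ))) = K * γ ^ 2 * (u ^ 2 * δ) * ((n : ℝ) * (1 + √(n : ℝ))) := by ring
            _ ≤ K * γ ^ 2 * ((n : ℝ) ^ 2 * 1) * ((n : ℝ) * (2 * n)) := by gcongr
            _ = 2 * K * γ ^ 2 * ((n : ℝ) ^ 4 * 1) := by ring
            _ ≤ 2 * K * γ ^ 2 * ((n : ℝ) ^ 4 * n) := by gcongr
            _ = _ := by ring
        nlinarith
    refine (Ex_mono hpt).trans ?_
    rw [Ex_ind]
    gcongr
  -- total
  have htot : lam' ^ 2 * Pr (fun G => ∃ t ≤ n, lam' <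
      |∑ j ∈ range t, if Act S ρ j G V0 then Yv S ρ j G (g j G) else 0|) ≤
      lam' ^ 2 * (Q * (n : ℝ) ^ (-(1 / 32) : ℝ)) := by
    refine hml'.trans ?_
    rw [Finset.sum_add_distrib, ← Finset.mul_sum]
    have hA : ∑ j ∈ range n, Ex (fun G => e2V S ρ j G V0 K C γ b) +
        2 * lam' * ∑ j ∈ range n, Ex (fun G => e1V S ρ j G V0 K C γ b) ≤
        K * γ ^ 2 * u * n + K * γ ^ 2 * u ^ 2 * δ * n * L +
        3 * K * γ ^ 2 * (n : ℝ) ^ 5 * (1 / (n : ℝ) ^ 6) +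
        2 * lam' * (K * γ * u * δ * n * L + 3 * K * γ * (n : ℝ) ^ 3 * (1 / (n : ℝ) ^ 6)) := by
      have : 2 * lam' * ∑ j ∈ range n, Ex (fun G => e1V S ρ j G V0 K C γ b) ≤
        2 * lam' * (K * γ * u * δ * n * L + 3 * K * γ * (n : ℝ) ^ 3 * (1 / (n : ℝ) ^ 6)) := by
        apply mul_le_mul_of_nonneg_left hE1; positivity
      linarith
    refine hA.trans ?_
    set ν := (n : ℝ) ^ (-(1 / 32) : ℝ) with hν
    have hν0 : 0 < ν := Real.rpow_pos_of_pos (by linarith) _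
    -- auxiliary inequalities
    have hsn : √(n : ℝ) ^ 2 = n := Real.sq_sqrt (by linarith)
    have hL1 : L ≤ M * (n : ℝ) ^ ((1:ℝ) / 32) := log_bound hn5 K1' hK1n
    have hδsL : δ * √(n : ℝ) * L ≤ M * ν := by
      have h1 : δ * √(n : ℝ) = (n : ℝ) ^ (-(1 / 16) : ℝ) := by
        rw [hδ, Real.sqrt_eq_rpow, ← Real.rpow_add (by linarith)]
        norm_num
      rw [h1]
      calc (n : ℝ) ^ (-(1 / 16) : ℝ) * L ≤ (n : ℝ) ^ (-(1 / 16) : ℝ) * (M * (n : ℝ) ^ ((1:ℝ) / 32)) := by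
            gcongr
        _ = M * ((n : ℝ) ^ (-(1 / 16) : ℝ) * (n : ℝ) ^ ((1:ℝ) / 32)) := by ring
        _ = M * ν := by
            rw [← Real.rpow_add (by linarith), hν]; norm_num
    have hδL : δ * L ≤ M * ν := by
      refine le_trans ?_ hδsL
      have : δ * L * 1 ≤ δ * L * √(n : ℝ) := by gcongr
      linarith
    have hνs : 1 ≤ √(n : ℝ) * ν := by
      rw [hν, Real.sqrt_eq_rpow, ← Real.rpow_add (by linarith)]
      exact Real.one_le_rpow hnr (by norm_num)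
    have hνn : 1 ≤ (n : ℝ) * ν := by
      refine hνs.trans ?_
      have := sqrt_le_nat hn5
      gcongr
    -- expand
    have hlam2 : lam' ^ 2 * (Q * ν) = γ ^ 2 * n * u ^ 2 * ν *
        (K + K * M + 3 * K + 2 * lam * (K * M + 3 * K)) := by
      rw [hlam', hQ]
      have : (lam * γ * √(n : ℝ) * u) ^ 2 = lam ^ 2 * γ ^ 2 * n * u ^ 2 := by
        rw [mul_pow, mul_pow, mul_pow, hsn]
      rw [this]
      field_simp
    rw [hlam2]
    have t1 : K * γ ^ 2 * u * n ≤ γ ^ 2 * n * u ^ 2 * ν * K := by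
      have h1 : 1 ≤ u * ν := hνs.trans (by gcongr)
      have h2 : K * γ ^ 2 * u * n * 1 ≤ K * γ ^ 2 * u * n * (u * ν) := by gcongr
      nlinarith
    have t2 : K * γ ^ 2 * u ^ 2 * δ * n * L ≤ γ ^ 2 * n * u ^ 2 * ν * (K * M) := by
      have h2 : K * γ ^ 2 * u ^ 2 * n * (δ * L) ≤ K * γ ^ 2 * u ^ 2 * n * (M * ν) := by gcongr
      nlinarith
    have t3 : 3 * K * γ ^ 2 * (n : ℝ) ^ 5 * (1 / (n : ℝ) ^ 6) ≤ γ ^ 2 * n * u ^ 2 * ν * (3 * K) := by
      have h1 : (n : ℝ) ^ 5 * (1 / (n : ℝ) ^ 6) ≤ 1 := by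
        rw [mul_one_div, div_le_one (by positivity)]
        exact pow_le_pow_right₀ hnr (by norm_num)
      have h2 : (1:ℝ) ≤ n * u ^ 2 * ν := by
        have : (1:ℝ) * 1 ≤ (n * ν) * u ^ 2 := by
          apply mul_le_mul hνn _ (by norm_num) (by positivity)
          exact one_le_pow₀ hu3
        nlinarith
      calc 3 * K * γ ^ 2 * (n : ℝ) ^ 5 * (1 / (n : ℝ) ^ 6) = 3 * K * γ ^ 2 * ((n : ℝ) ^ 5 * (1 / (n : ℝ) ^ 6)) := by ring
        _ ≤ 3 * K * γ ^ 2 * (n * u ^ 2 * ν) := by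
            apply mul_le_mul_of_nonneg_left (h1.trans h2); positivity
        _ = _ := by ring
    have t4 : 2 * lam' * (K * γ * u * δ * n * L) ≤ γ ^ 2 * n * u ^ 2 * ν * (2 * lam * (K * M)) := by
      calc 2 * lam' * (K * γ * u * δ * n * L) = 2 * lam * K * γ ^ 2 * u ^ 2 * n * (δ * √(n : ℝ) * L) := by
            rw [hlam']; ring
        _ ≤ 2 * lam * K * γ ^ 2 * u ^ 2 * n * (M * ν) := by gcongr
        _ = _ := by ring
    have t5 : 2 * lam' * (3 * K * γ * (n : ℝ) ^ 3 * (1 / (n : ℝ) ^ 6)) ≤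
        γ ^ 2 * n * u ^ 2 * ν * (2 * lam * (3 * K)) := by
      have h1 : (n : ℝ) ^ 3 * (1 / (n : ℝ) ^ 6) * √(n : ℝ) ≤ 1 := by
        rw [mul_one_div, div_mul_eq_mul_div, div_le_one (by positivity)]
        calc (n : ℝ) ^ 3 * √(n : ℝ) ≤ (n : ℝ) ^ 3 * n := by
              gcongr; exact sqrt_le_nat hn5
          _ = (n : ℝ) ^ 4 := by ring
          _ ≤ (n : ℝ) ^ 6 := pow_le_pow_right₀ hnr (by norm_num)
      have h2 : u ≤ n * u ^ 2 * ν := by
        have : u * (1:ℝ) * 1 ≤ u * (n * ν) * u := by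
          apply mul_le_mul _ hu3 (by norm_num) (by positivity)
          apply mul_le_mul_of_nonneg_left hνn (by linarith)
        nlinarith
      calc 2 * lam' * (3 * K * γ * (n : ℝ) ^ 3 * (1 / (n : ℝ) ^ 6)) =
          2 * lam * (3 * K) * γ ^ 2 * u * ((n : ℝ) ^ 3 * (1 / (n : ℝ) ^ 6) * √(n : ℝ)) := by
            rw [hlam']; ring
        _ ≤ 2 * lam * (3 * K) * γ ^ 2 * u * 1 := by gcongr
        _ = 2 * lam * (3 * K) * γ ^ 2 * u := by ring
        _ ≤ 2 * lam * (3 * K) * γ ^ 2 * (n * u ^ 2 * ν) := by gcongr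
        _ = _ := by ring
    linarith
  have hfin := le_of_mul_le_mul_left htot (by positivity)
  exact hfin.trans (hn4 n hn4')

end

end Pool.Agent.W925.PK
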