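import Pool.Agent.W841.PK.ChkS

/-! Soundness of the run (project PK, MP_350a25_pr). -/

set_option autoImplicit false

namespace Pool.Agent.W925.PK

open W841.PK W841.PK.Chk

theorem AN_mono {v : ℝ} {F F' : ℝ → ℝ} (h : AN v F) (hle : ∀ y, F y ≤ F' y) : AN v F' := by
  intro y ε hε
  refine (h y ε hε).mono 0 ?_
  intro n _ S ρ G _ _ hP t ht
  refine (hP t ht).trans ?_
  apply mul_le_mul_of_nonneg_right _ (Nat.cast_nonneg n)
  linarith [hle y]

theorem AS_anti {v : ℝ} {g g' : ℝ → ℝ} (h : AS v g) (hle : ∀ y, g' y ≤ g y) : AS v g' := by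
  intro y ε hε
  refine (h y ε hε).mono 0 ?_
  intro n _ S ρ G _ _ hP t ht
  refine le_trans ?_ (hP t ht)
  apply mul_le_mul_of_nonneg_right _ (Real.sqrt_nonneg _)
  linarith [hle y]

theorem AF_nice (hp : S_Pl) {δ : ℝ} (hδ : 0 < δ) {fl fn fN fL fR : ℕ}
    (hF : InvF fl fn fN fL fR) : Nice (pl δ (AF fl fn fN fL fR)) := by
  apply (hp δ hδ).2.2.2.1
  · intro a b hab
    unfold AF
    apply div_le_div_of_nonneg_right _ (by positivity)
    exact_mod_cast hF.anti _ _ (Int.toNat_le_toNat (by omega))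
  · intro i
    unfold AF
    refine ⟨by positivity, ?_⟩
    rw [div_le_one (by positivity)]
    have h1 := hF.anti 0 (i + 65536).toNat (Nat.zero_le _)
    have h2 : fval fl fn fN fL fR 0 = fL := by
      unfold fval
      rw [if_neg]
      simp only [Nat.ble_eq]
      have := hF.lo; omega
    rw [h2] at h1
    have h3 := h1.trans hF.le
    exact_mod_cast h3

theorem AG_nice (hp : S_Pl) {δ : ℝ} (hδ : 0 < δ) {gl gn gN : ℕ}
    (hG : InvG gl gn gN) : Nice (pl δ (AG gl gn gN)) := by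
  apply (hp δ hδ).2.2.2.1
  · intro a b hab
    unfold AG
    apply div_le_div_of_nonneg_right _ (by positivity)
    exact_mod_cast hG.anti _ _ (Int.toNat_le_toNat (by omega))
  · intro i
    unfold AG
    refine ⟨by positivity, ?_⟩
    rw [div_le_one (by positivity)]
    have h3 := (hG.anti 0 (i + 65536).toNat (Nat.zero_le _)).trans hG.le
    exact_mod_cast h3

theorem crun (hp : S_Pl) (hblk : S_Block) (hb : S_CBlk) (hr : S_CRg) : S_CRun := by
  intro l
  induction l with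
  | nil =>
    intro vn D fl fn fN fL fR gl gn gN hvn hD hD0 hF hG hAN hAS hrun
    unfold run at hrun
    simp only [Bool.and_eq_true, Nat.ble_eq, Nat.beq_eq] at hrun
    obtain ⟨⟨h1, h2⟩, h3⟩ := hrun
    subst h1 h2
    refine ⟨pl (1 / ((16 : ℕ) : ℝ)) (AG gl gn gN), ?_, ?_⟩
    · have : (((256 * 1024 : ℕ) : ℝ) / 1024) = 256 := by norm_num
      rw [this] at hAS
      exact hAS
    · have h4 := (hp (1 / ((16 : ℕ) : ℝ)) (by norm_num)).1 (AG gl gn gN) (-512)
      have h5 : (((-512 : ℤ) : ℝ) * (1 / ((16 : ℕ) : ℝ))) = -32 := by norm_num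
      rw [h5] at h4
      rw [h4]
      unfold AG
      have h6 : ((-512 : ℤ) + 65536).toNat = 65024 := by decide
      rw [h6, le_div_iff₀ (by positivity)]
      have h7 : ((11 * 2 ^ 40 : ℕ) : ℝ) ≤ ((20 * gval gl gn gN 65024 : ℕ) : ℝ) := by
        exact_mod_cast h3
      push_cast at h7
      linarith
  | cons a t ih =>
    intro vn D fl fn fN fL fR gl gn gN hvn hD hD0 hF hG hAN hAS hrun
    have hDr : (0:ℝ) < D := by exact_mod_cast hD0
    have hδ : (0:ℝ) < 1 / D := by positivity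
    cases a with
    | blk j0 j1 j2 j3 b h c fn2 =>
      obtain ⟨vn2, fl2, fN2, fL2, fR2, gN2, hvn2, hF2, hG2, hOK, hk⟩ :=
        hb vn D fl fn fN fL fR gl gn gN j0 j1 j2 j3 b h c fn2 _ hvn hD hD0 hF hG hrun
      have hv1 : (1:ℝ) ≤ (vn : ℝ) / 1024 := by
        rw [le_div_iff₀ (by norm_num)]
        have : ((1024 : ℕ) : ℝ) ≤ vn := by exact_mod_cast hvn
        push_cast at this
        linarith
      obtain ⟨h1, h2⟩ := hblk _ _ _ _ _ _ hv1 (AF_nice hp hδ hF) (AG_nice hp hδ hG) hAN hAS hOK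
      exact ih vn2 D fl2 fn2 fN2 fL2 fR2 b h gN2 hvn2 hD hD0 hF2 hG2 h1 h2 hk
    | rg r fl2 fn2 gl2 gn2 =>
      obtain ⟨hr1, hDr', fN2, fR2, gN2, hF2, hG2, hle1, hle2, hk⟩ :=
        hr (1 / D) D fl fn fN fL fR gl gn gN r fl2 fn2 gl2 gn2 _ hδ hF hG hrun
      have hdvd : r ∣ D := Nat.dvd_of_mod_eq_zero hDr'
      have hr0 : (0:ℝ) < r := by exact_mod_cast hr1
      have heq : (r : ℝ) * (1 / D) = 1 / ((D / r : ℕ) : ℝ) := by
        rw [Nat.cast_div hdvd (by positivity)]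
        field_simp
      rw [heq] at hle1 hle2
      have hD2 : D / r ∣ 256 := (Nat.div_dvd_of_dvd hdvd).trans hD
      have hD20 : 0 < D / r := Nat.div_pos (Nat.le_of_dvd hD0 hdvd) hr1
      exact ih vn (D / r) fl2 fn2 fN2 fL fR2 gl2 gn2 gN2 hvn hD2 hD20 hF2 hG2
        (AN_mono hAN hle1) (AS_anti hAS hle2) hk

end Pool.Agent.W925.PK
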